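import Mathlib
import Pool.Agent.R328.TA
import Pool.Agent.Run7.h80.Sym.Full

/-!
# Growth gaps for solvable groups with decomposable eigenvalues

`G = ⟨S⟩`, `H` is a subgroup of index at most `d`, `Γ = γ_{k+1}(H)` is nilpotent (or `H/[Γ,Γ]` is
not virtually nilpotent), and `A = Γ^ab`, on which `H` acts by conjugation. Suppose that for every
eigenvalue `z` of an element of `H` on `ℂ ⊗ A`, which is a unit and not a root of unity, the minimal
polynomial `f` of `z` is decomposable: `f = X ^ j g(h)` with an irreducible `g` of degree at least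
`N ≥ 3` and a Laurent polynomial `h` with integer coefficients, not of the form
`± X ^ m + δ X ^ (-m) + c` with `δ = 0, 1, -1`. (In other words `ℚ(z)` contains a field of degree at
least `N` generated by a value `h(z)`, over which `z` has the greatest possible degree.)

Then `G` is virtually nilpotent or its growth rate with respect to `S` is at least
`max (1 / 6400) (min (1 / 24) (N / 4800000)) / (2 ^ k d)`. So the gap is absolute for given `k` and `d`;
it does not depend on the rank of `A`, the degrees of the eigenvalues and the Laurent polynomials `h`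
(one for each eigenvalue).

The bound for the Mahler measure of decomposable polynomials is that of
MP_7ab245_nt, DecomposablePolynomials. The reduction of growth to eigenvalues is from the starting files.
-/

set_option autoImplicit false

namespace Pool.Agent.Results.MP_d69e80_al.DecomposableEigenvalues

open Filter Topology Polynomial LaurentPolynomial
open scoped Pointwise commutatorElement TensorProduct

universe u

/-- The term `γ_{k+1}(G)` of the lower central series (so `k = 1` gives `G'`). -/
abbrev gamma (G : Type*) [Group G] (k : ℕ) : Subgroup G := (⊤ : Subgroup G).lowerCentralSeries k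

/-- Conjugation by `t` on a normal subgroup `N`. -/
noncomputable def conjHom {G : Type*} [Group G] (N : Subgroup G) [N.Normal] (t : G) : N →* N :=
  (MulAut.conjNormal t : N ≃* N).toMonoidHom

/-- Conjugation by `t` on the abelianization `N^ab` of a normal subgroup `N`. -/
noncomputable def conjMap {G : Type*} [Group G] (N : Subgroup G) [N.Normal] (t : G) :
    Abelianization N →* Abelianization N :=
  Abelianization.map (conjHom N t)

/-- Conjugation by `t` on the abelianization `N^ab` (written additively) of a normal subgroup `N`,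
as a map. -/
noncomputable def conjFun {G : Type*} [Group G] (N : Subgroup G) [N.Normal] (t : G)
    (x : Additive (Abelianization N)) : Additive (Abelianization N) :=
  Additive.ofMul (conjMap N t x.toMul)

lemma conjFun_add {G : Type*} [Group G] (N : Subgroup G) [N.Normal] (t : G)
    (x y : Additive (Abelianization N)) : conjFun N t (x + y) = conjFun N t x + conjFun N t y :=
  map_mul (conjMap N t) x.toMul y.toMul

/-- Conjugation by `t` on the abelianization `N^ab` (written additively) of a normal subgroup `N`,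
as a homomorphism of the abelian group `N^ab`. -/
noncomputable def conjAdd {G : Type*} [Group G] (N : Subgroup G) [N.Normal] (t : G) :
    Additive (Abelianization N) →+ Additive (Abelianization N) :=
  AddMonoidHom.mk' (conjFun N t) (conjFun_add N t)

/-- Conjugation by `t` on the abelianization `N^ab` (written additively) of a normal subgroup `N`,
as an endomorphism of the `ℤ`-module `N^ab`. -/
noncomputable def conjAb {G : Type*} [Group G] (N : Subgroup G) [N.Normal] (t : G) :
    Module.End ℤ (Additive (Abelianization N)) :=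
  (conjAdd N t).toIntLinearMap

/-- `z` is an eigenvalue of `t ∈ H` acting on `ℂ ⊗ Γ^ab`, `Γ = γ_{k+1}(H)`, it is an algebraic unit
and not a root of unity. -/
def UnitEigenvalue {H : Type*} [Group H] (k : ℕ) (t : H) (z : ℂ) : Prop :=
  Module.End.HasEigenvalue (LinearMap.baseChange ℂ (conjAb (gamma H k) t) :
    Module.End ℂ (ℂ ⊗[ℤ] Additive (Abelianization (gamma H k)))) z ∧
  IsIntegral ℤ z ∧ IsIntegral ℤ z⁻¹ ∧ ∀ m : ℕ, 0 < m → z ^ m ≠ 1

/-- `h = ε T ^ m + δ T ^ (-m) + c` with `ε = ± 1` and `δ = 0, 1, -1`. -/
def Excluded (h : ℤ[T;T⁻¹]) : Prop :=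
  ∃ ε δ c m : ℤ, |ε| = 1 ∧ |δ| ≤ 1 ∧
    h = LaurentPolynomial.C ε * LaurentPolynomial.T m +
      LaurentPolynomial.C δ * LaurentPolynomial.T (-m) + LaurentPolynomial.C c

/-- The minimal polynomial of `z` is `T ^ j g(h)` with an irreducible `g` of degree at least `N` and a
Laurent polynomial `h` that is not excluded. -/
def Decomposable (N : ℕ) (z : ℂ) : Prop :=
  ∃ (h : ℤ[T;T⁻¹]) (g : ℤ[X]) (j : ℤ), ¬ Excluded h ∧ Irreducible g ∧ N ≤ g.natDegree ∧
    toLaurent (minpoly ℤ z) = LaurentPolynomial.T j * aeval h g

/-- `S` is a finite generating set of `G`, the subgroup `H` has index at most `d`, and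
`Γ = γ_{k+1}(H)` is nilpotent or `H / [Γ, Γ]` is not virtually nilpotent. -/
def Setting (k d : ℕ) {G : Type*} [Group G] (S : Set G) (H : Subgroup G) : Prop :=
  1 ≤ k ∧ S.Finite ∧ Subgroup.closure S = ⊤ ∧ H.index ≠ 0 ∧ H.index ≤ d ∧
    (Group.IsNilpotent (gamma H k) ∨ ¬ Group.IsVirtuallyNilpotent (H ⧸ ⁅gamma H k, gamma H k⁆))

lemma log_002 : (3 / 1600 : ℝ) ≤ Real.log 1.002 := by
  rw [Real.le_log_iff_exp_le (by norm_num)]
  have h := Real.exp_bound' (x := 3 / 1600) (by norm_num) (by norm_num) (n := 3) (by norm_num)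
  refine h.trans ?_
  norm_num [Finset.sum_range_succ, Nat.factorial]

/-- **The growth gap for solvable groups with decomposable eigenvalues.** -/
theorem result (k d N : ℕ) (hN : 3 ≤ N) (G : Type u) [Group G] (S : Set G) (H : Subgroup G)
    (hS : Setting k d S H)
    (hdec : ∀ (t : H) (z : ℂ), UnitEigenvalue k t z → Decomposable N z) :
    ∃ ρ : ℝ, Tendsto (fun n : ℕ => Real.log (Nat.card ↥(S ^ n)) / n) atTop (𝓝 ρ) ∧
      (Group.IsVirtuallyNilpotent G ∨
        max (1 / 6400 : ℝ) (min (1 / 24 : ℝ) ((N : ℝ) / 4800000)) / (2 ^ k * d) ≤ ρ) := by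
  obtain ⟨hk, hfin, hgen, hH0, hHd, hnil⟩ := hS
  refine ⟨H746UG.rho S, H746UG.tendsto_rho S, ?_⟩
  set y : ℝ := 12 * max (1 / 6400 : ℝ) (min (1 / 24 : ℝ) ((N : ℝ) / 4800000)) with hy
  have hy0 : 0 ≤ y := by positivity
  have hy1 : y ≤ 1 / 2 := by
    have : max (1 / 6400 : ℝ) (min (1 / 24 : ℝ) ((N : ℝ) / 4800000)) ≤ 1 / 24 :=
      max_le (by norm_num) (min_le_left _ _)
    rw [hy]
    linarith
  have h4 := Pool.Agent.R328.gap_of_log hk S hfin hgen H hH0 hHd hnil hy0 hy1 (by
    intro t a x hx0 hx hxi hxi' hp heig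
    obtain ⟨h, g, j, hex, hg, hgN, hF⟩ := hdec t x ⟨heig, hxi, hxi', hx⟩
    obtain ⟨E, hE, hb⟩ := Pool.Agent.Run7.h80.Sym.full h (by
      intro ε δ c m hε hδ he
      exact hex ⟨ε, δ, c, m, hε, hδ, he⟩)
    obtain ⟨b1, b2⟩ := hb g (minpoly ℤ x) j hg.ne_zero hF
    have h3 : 3 ≤ g.natDegree := hN.trans hgN
    rw [Pool.Agent.Run7.h80.Sym.outE_irreducible hg h3 hE.2] at b1 b2
    have c1 : Real.exp (g.natDegree / 400000) ≤ Pool.Agent.W963.GE.MM x := b1
    have c2 : 1.002 ≤ Pool.Agent.W963.GE.MM x := b2 (by omega)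
    have d1 : (g.natDegree : ℝ) / 400000 ≤ Real.log (Pool.Agent.W963.GE.MM x) := by
      rw [Real.le_log_iff_exp_le (by linarith)]
      exact c1
    have d2 : (3 / 1600 : ℝ) ≤ Real.log (Pool.Agent.W963.GE.MM x) :=
      log_002.trans (Real.log_le_log (by norm_num) c2)
    have d3 : (N : ℝ) ≤ g.natDegree := by exact_mod_cast hgN
    rw [hy, mul_max_of_nonneg _ _ (by norm_num : (0:ℝ) ≤ 12)]
    apply max_le
    · linarith
    · have d4 : min (1 / 24 : ℝ) (N / 4800000) ≤ N / 4800000 := min_le_right _ _
      have d5 : (N : ℝ) / 4800000 ≤ g.natDegree / 400000 / 12 := by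
        rw [div_div]
        norm_num
        gcongr
      linarith)
  refine h4.imp_right fun h5 => le_trans (le_of_eq ?_) h5
  rw [hy]
  ring

end Pool.Agent.Results.MP_d69e80_al.DecomposableEigenvalues
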