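import Mathlib
import Pool.Agent.R328.TA
import Pool.Agent.Run7.h22.Gr

/-!
# Growth gaps for solvable groups with eigenvalues in normal fields with few complex conjugations

`G = ⟨S⟩`, `H` is a subgroup of index at most `d`, `Γ = γ_{k+1}(H)` is nilpotent (or `H/[Γ,Γ]` is
not virtually nilpotent), and `A = Γ^ab`, on which `H` acts by conjugation. For a normal extension
`Ω ⊆ ℂ` of `ℚ`, which may be infinite, let `κ(Ω)` be the number of the complex conjugations in its
Galois group, that is, of the conjugates in `Gal(Ω/ℚ)` of the restriction of complex conjugation.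

If every eigenvalue `z` of an element of `H` on `ℂ ⊗ A`, which is a unit and not a root of unity, lies
in a normal extension `Ω` (depending on `z`) with `κ exp (9 √(log 2κ)) ≤ K deg z`, `κ = κ(Ω)`, then
`G` is virtually nilpotent or `ρ_S ≥ c / (2 ^ k d (1 + K))` with an absolute constant `c > 0`.
In particular, if all these eigenvalues lie in one normal extension (or each in some normal extension)
with at most `κ` complex conjugations, then the gap depends only on `k`, `d` and `κ`, and not on the
rank of `A` or the degrees of the eigenvalues. The case `κ = 1` is that of totally real and CM fields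
(starting result `CMEigenvalues`).
-/

set_option autoImplicit false

namespace Pool.Agent.Results.MP_d69e80_al.FewComplexConjugations

open Filter Topology Polynomial
open scoped Pointwise commutatorElement TensorProduct

universe u

/-- The term `γ_{k+1}(G)` of the lower central series (so `k = 1` gives `G'`). -/
abbrev gamma (G : Type*) [Group G] (k : ℕ) : Subgroup G := (⊤ : Subgroup G).lowerCentralSeries k

/-- Conjugation by `t` on a normal subgroup `N`. -/
noncomputable def conjHom {G : Type*} [Group G] (N : Subgroup G) [N.Normal] (t : G) : N →* N :=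
  (MulAut.conjNormal t : N ≃* N).toMonoidHom

/-- Conjugation by `t` on the abelianization `N^ab` of a normal subgroup `N`. -/
noncomputable def conjMap {G : Type*} [Group G] (N : Subgroup G) [N.Normal] (t : G) :
    Abelianization N →* Abelianization N :=
  Abelianization.map (conjHom N t)

/-- Conjugation by `t` on the abelianization `N^ab` (written additively) of a normal subgroup `N`,
as a map. -/
noncomputable def conjFun {G : Type*} [Group G] (N : Subgroup G) [N.Normal] (t : G)
    (x : Additive (Abelianization N)) : Additive (Abelianization N) :=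
  Additive.ofMul (conjMap N t x.toMul)

lemma conjFun_add {G : Type*} [Group G] (N : Subgroup G) [N.Normal] (t : G)
    (x y : Additive (Abelianization N)) : conjFun N t (x + y) = conjFun N t x + conjFun N t y :=
  map_mul (conjMap N t) x.toMul y.toMul

/-- Conjugation by `t` on the abelianization `N^ab` (written additively) of a normal subgroup `N`,
as a homomorphism of the abelian group `N^ab`. -/
noncomputable def conjAdd {G : Type*} [Group G] (N : Subgroup G) [N.Normal] (t : G) :
    Additive (Abelianization N) →+ Additive (Abelianization N) :=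
  AddMonoidHom.mk' (conjFun N t) (conjFun_add N t)

/-- Conjugation by `t` on the abelianization `N^ab` (written additively) of a normal subgroup `N`,
as an endomorphism of the `ℤ`-module `N^ab`. -/
noncomputable def conjAb {G : Type*} [Group G] (N : Subgroup G) [N.Normal] (t : G) :
    Module.End ℤ (Additive (Abelianization N)) :=
  (conjAdd N t).toIntLinearMap

/-- `z` is an eigenvalue of `t ∈ H` acting on `ℂ ⊗ Γ^ab`, `Γ = γ_{k+1}(H)`, it is an algebraic unit
and not a root of unity. -/
def UnitEigenvalue {H : Type*} [Group H] (k : ℕ) (t : H) (z : ℂ) : Prop :=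
  Module.End.HasEigenvalue (LinearMap.baseChange ℂ (conjAb (gamma H k) t) :
    Module.End ℂ (ℂ ⊗[ℤ] Additive (Abelianization (gamma H k)))) z ∧
  IsIntegral ℤ z ∧ IsIntegral ℤ z⁻¹ ∧ ∀ m : ℕ, 0 < m → z ^ m ≠ 1

/-- The complex conjugations of the subfield `Ω` of `ℂ`: the automorphisms `σ` of `Ω` over `ℚ` such
that `φ ∘ σ = conj ∘ φ` for some embedding `φ` of `Ω` in `ℂ`. -/
def conjugations (Ω : IntermediateField ℚ ℂ) : Set (Ω ≃ₐ[ℚ] Ω) :=
  {σ | ∃ φ : Ω →+* ℂ, ∀ x, φ (σ x) = starRingEnd ℂ (φ x)}

/-- `Ω` is a normal (perhaps infinite) extension of `ℚ` with exactly `κ ≥ 1` complex conjugations. -/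
def NumConj (Ω : IntermediateField ℚ ℂ) (κ : ℕ) : Prop :=
  Normal ℚ Ω ∧ (conjugations Ω).Finite ∧ (conjugations Ω).ncard = κ

/-- Every unit eigenvalue `z` lies in a normal extension of `ℚ` with few complex conjugations compared
with the degree of `z`: their number `κ` satisfies `κ exp (9 √(log 2κ)) ≤ K deg z`. -/
def FewConj (H : Type*) [Group H] (k : ℕ) (K : ℝ) : Prop :=
  ∀ (t : H) (z : ℂ), UnitEigenvalue k t z →
    ∃ (Ω : IntermediateField ℚ ℂ) (κ : ℕ), NumConj Ω κ ∧ z ∈ Ω ∧
      κ * Real.exp (9 * √(Real.log (2 * κ))) ≤ K * (minpoly ℤ z).natDegree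

/-- Every unit eigenvalue lies in a normal extension of `ℚ` with at most `κ` complex conjugations. -/
def BoundedConj (H : Type*) [Group H] (k κ : ℕ) : Prop :=
  ∀ (t : H) (z : ℂ), UnitEigenvalue k t z →
    ∃ (Ω : IntermediateField ℚ ℂ) (κ' : ℕ), NumConj Ω κ' ∧ z ∈ Ω ∧ κ' ≤ κ

/-- `S` is a finite generating set of `G`, the subgroup `H` has index at most `d`, and
`Γ = γ_{k+1}(H)` is nilpotent or `H / [Γ, Γ]` is not virtually nilpotent. -/
def Setting (k d : ℕ) {G : Type*} [Group G] (S : Set G) (H : Subgroup G) : Prop :=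
  1 ≤ k ∧ S.Finite ∧ Subgroup.closure S = ⊤ ∧ H.index ≠ 0 ∧ H.index ≤ d ∧
    (Group.IsNilpotent (gamma H k) ∨ ¬ Group.IsVirtuallyNilpotent (H ⧸ ⁅gamma H k, gamma H k⁆))

/-- The gap for groups the eigenvalues of which lie in normal extensions with few complex
conjugations compared with their degrees. -/
theorem result : ∃ c : ℝ, 0 < c ∧
    ∀ (k d : ℕ) (G : Type u) [Group G] (S : Set G) (H : Subgroup G), Setting k d S H →
      ∃ ρ : ℝ, Tendsto (fun n : ℕ => Real.log (Nat.card ↥(S ^ n)) / n) atTop (𝓝 ρ) ∧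
        ∀ K : ℝ, 0 ≤ K → FewConj H k K →
          Group.IsVirtuallyNilpotent G ∨ c / (2 ^ k * d * (1 + K)) ≤ ρ := by
  obtain ⟨C, hC, h1⟩ := Pool.Agent.Run7.h22.mahler_few
  set c0 := min (1 / C) (1 / 2) with hc0def
  have hc0 : 0 < c0 := lt_min (by positivity) (by norm_num)
  have e1 : c0 ≤ 1 / C := min_le_left _ _
  have e4 : c0 ≤ 1 / 2 := min_le_right _ _
  refine ⟨c0 / 12, by positivity, ?_⟩
  rintro k d G _ S H ⟨hk, hfin, hgen, hH0, hHd, hnil⟩
  refine ⟨H746UG.rho S, H746UG.tendsto_rho S, ?_⟩
  intro K hK hfew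
  have hy0 : 0 ≤ c0 / (1 + K) := by positivity
  have hy : c0 / (1 + K) ≤ 1 / 2 := (div_le_self hc0.le (by linarith)).trans e4
  have h4 := Pool.Agent.R328.gap_of_log hk S hfin hgen H hH0 hHd hnil hy0 hy (by
    intro t a x hx0 hx hxi hxi' hp heig
    obtain ⟨Ω, κ, ⟨hnorm, hfinΩ, hcard⟩, hxΩ, hκ⟩ := hfew t x ⟨heig, hxi, hxi', hx⟩
    have hM : 1 < Pool.Agent.W963.GE.MM x := Pool.Agent.W963.GE.MM_gt x hxi hx0 hx
    have hlog : 0 < Real.log (Pool.Agent.W963.GE.MM x) := Real.log_pos hM
    have h2 : ((minpoly ℤ x).natDegree : ℝ) ≤ C * (κ * Real.exp (9 * √(Real.log (2 * κ)))) *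
        Real.log (Pool.Agent.W963.GE.MM x) := by
      have h3 := h1 Ω x hxΩ hfinΩ hxi hxi' hx0 hx
      have h5 : (conjugations Ω).ncard = (Pool.Agent.Run7.h22.conjugations Ω).ncard := rfl
      rw [← h5, hcard] at h3
      exact h3
    have hn : (0:ℝ) < (minpoly ℤ x).natDegree := by exact_mod_cast minpoly.natDegree_pos hxi
    have h6 : ((minpoly ℤ x).natDegree : ℝ) ≤ C * (K * (minpoly ℤ x).natDegree) *
        Real.log (Pool.Agent.W963.GE.MM x) := by
      refine h2.trans ?_
      gcongr
    have h7 : 1 ≤ C * K * Real.log (Pool.Agent.W963.GE.MM x) := by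
      by_contra h8
      push Not at h8
      have h9 : C * (K * (minpoly ℤ x).natDegree) * Real.log (Pool.Agent.W963.GE.MM x) =
        (C * K * Real.log (Pool.Agent.W963.GE.MM x)) * (minpoly ℤ x).natDegree := by ring
      rw [h9] at h6
      nlinarith
    rw [div_le_iff₀ (by linarith)]
    refine e1.trans ?_
    rw [div_le_iff₀ hC]
    nlinarith [mul_pos hC hlog])
  refine h4.imp_right fun h5 => le_trans (le_of_eq ?_) h5
  rw [div_div, div_div, div_div]
  congr 1
  ring

/-- The gap for groups the eigenvalues of which lie in normal extensions with at most `κ` complex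
conjugations depends only on `k`, `d` and `κ`. -/
theorem corollary : ∃ c : ℝ, 0 < c ∧
    ∀ (k d : ℕ) (G : Type u) [Group G] (S : Set G) (H : Subgroup G), Setting k d S H →
      ∃ ρ : ℝ, Tendsto (fun n : ℕ => Real.log (Nat.card ↥(S ^ n)) / n) atTop (𝓝 ρ) ∧
        ∀ κ : ℕ, BoundedConj H k κ → Group.IsVirtuallyNilpotent G ∨
          c / (2 ^ k * d * (1 + κ * Real.exp (9 * √(Real.log (2 * κ))))) ≤ ρ := by
  obtain ⟨c, hc, h⟩ := result
  refine ⟨c, hc, ?_⟩
  intro k d G _ S H hS
  obtain ⟨ρ, hρ, h1⟩ := h k d G S H hS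
  refine ⟨ρ, hρ, ?_⟩
  intro κ hκ
  refine h1 (κ * Real.exp (9 * √(Real.log (2 * κ)))) (by positivity) ?_
  intro t z hz
  obtain ⟨Ω, κ', hΩ, hzΩ, hκ'⟩ := hκ t z hz
  refine ⟨Ω, κ', hΩ, hzΩ, ?_⟩
  have h2 : (κ' : ℝ) ≤ κ := by exact_mod_cast hκ'
  have h3 : (1:ℝ) ≤ (minpoly ℤ z).natDegree := by
    exact_mod_cast (minpoly.natDegree_pos hz.2.1 : 0 < (minpoly ℤ z).natDegree)
  have h4 : (κ' : ℝ) * Real.exp (9 * √(Real.log (2 * κ'))) ≤
      κ * Real.exp (9 * √(Real.log (2 * κ))) := by
    have hk' : 0 < κ' := by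
      rw [← hΩ.2.2]
      have := hΩ.1
      exact (Set.ncard_pos hΩ.2.1).mpr (Pool.Agent.Run7.h22.conj_nonempty Ω)
    have hk'' : (0:ℝ) < κ' := by exact_mod_cast hk'
    gcongr
  refine h4.trans ?_
  have h5 : 0 ≤ κ * Real.exp (9 * √(Real.log (2 * κ))) := by positivity
  nlinarith

end Pool.Agent.Results.MP_d69e80_al.FewComplexConjugations
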