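import Mathlib
import Pool.Agent.R328.TA
import Pool.Agent.Run7.h22.GrP

/-!
# Growth gaps for solvable groups with eigenvalues in Galois fields with few Frobenius automorphisms

`G = ⟨S⟩`, `H` is a subgroup of index at most `d`, `Γ = γ_{k+1}(H)` is nilpotent (or `H/[Γ,Γ]` is
not virtually nilpotent), and `A = Γ^ab`, on which `H` acts by conjugation. Suppose that every
eigenvalue `z` of an element of `H` on `ℂ ⊗ A`, which is a unit and not a root of unity, lies in a
Galois number field `L` such that, for some prime number `p` unramified in `L` and some `a ≥ 1`, the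
number `κ` of the automorphisms of `L` which are `a`-th powers of Frobenius automorphisms above `p`
satisfies `p ^ (a + 1) κ exp (9 √(log 2κ)) ≤ K deg z` (`L`, `p` and `a` may depend on `z`). Then `G` is
virtually nilpotent or `ρ_S ≥ c / (2 ^ k d (1 + K))` with an absolute constant `c > 0`.
-/

set_option autoImplicit false

namespace Pool.Agent.Results.MP_d69e80_al.FewFrobeniusAutomorphisms

open Filter Topology Polynomial NumberField
open scoped Pointwise commutatorElement TensorProduct

universe u

/-- The term `γ_{k+1}(G)` of the lower central series (so `k = 1` gives `G'`). -/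
abbrev gamma (G : Type*) [Group G] (k : ℕ) : Subgroup G := (⊤ : Subgroup G).lowerCentralSeries k

/-- Conjugation by `t` on a normal subgroup `N`. -/
noncomputable def conjHom {G : Type*} [Group G] (N : Subgroup G) [N.Normal] (t : G) : N →* N :=
  (MulAut.conjNormal t : N ≃* N).toMonoidHom

/-- Conjugation by `t` on the abelianization `N^ab` of a normal subgroup `N`. -/
noncomputable def conjMap {G : Type*} [Group G] (N : Subgroup G) [N.Normal] (t : G) :
    Abelianization N →* Abelianization N :=
  Abelianization.map (conjHom N t)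

/-- Conjugation by `t` on the abelianization `N^ab` (written additively) of a normal subgroup `N`,
as a map. -/
noncomputable def conjFun {G : Type*} [Group G] (N : Subgroup G) [N.Normal] (t : G)
    (x : Additive (Abelianization N)) : Additive (Abelianization N) :=
  Additive.ofMul (conjMap N t x.toMul)

lemma conjFun_add {G : Type*} [Group G] (N : Subgroup G) [N.Normal] (t : G)
    (x y : Additive (Abelianization N)) : conjFun N t (x + y) = conjFun N t x + conjFun N t y :=
  map_mul (conjMap N t) x.toMul y.toMul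

/-- Conjugation by `t` on the abelianization `N^ab` (written additively) of a normal subgroup `N`,
as a homomorphism of the abelian group `N^ab`. -/
noncomputable def conjAdd {G : Type*} [Group G] (N : Subgroup G) [N.Normal] (t : G) :
    Additive (Abelianization N) →+ Additive (Abelianization N) :=
  AddMonoidHom.mk' (conjFun N t) (conjFun_add N t)

/-- Conjugation by `t` on the abelianization `N^ab` (written additively) of a normal subgroup `N`,
as an endomorphism of the `ℤ`-module `N^ab`. -/
noncomputable def conjAb {G : Type*} [Group G] (N : Subgroup G) [N.Normal] (t : G) :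
    Module.End ℤ (Additive (Abelianization N)) :=
  (conjAdd N t).toIntLinearMap

/-- `z` is an eigenvalue of `t ∈ H` acting on `ℂ ⊗ Γ^ab`, `Γ = γ_{k+1}(H)`, it is an algebraic unit
and not a root of unity. -/
def UnitEigenvalue {H : Type*} [Group H] (k : ℕ) (t : H) (z : ℂ) : Prop :=
  Module.End.HasEigenvalue (LinearMap.baseChange ℂ (conjAb (gamma H k) t) :
    Module.End ℂ (ℂ ⊗[ℤ] Additive (Abelianization (gamma H k)))) z ∧
  IsIntegral ℤ z ∧ IsIntegral ℤ z⁻¹ ∧ ∀ m : ℕ, 0 < m → z ^ m ≠ 1

/-- the prime number `p` is unramified in the number field `L`: it is not contained in the square of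
a prime ideal of the ring of integers -/
def Unramified (L : IntermediateField ℚ ℂ) (p : ℕ) : Prop :=
  ∀ 𝔓 : Ideal (𝓞 L), 𝔓.IsPrime → (p : 𝓞 L) ∈ 𝔓 → (p : 𝓞 L) ∉ 𝔓 ^ 2

/-- the automorphisms of `L` which are congruent to the map `x ↦ x ^ (p ^ a)` modulo some prime ideal
above `p`; if `p` is unramified they are the `a`-th powers of the Frobenius automorphisms above `p` -/
def frobenii (L : IntermediateField ℚ ℂ) (p a : ℕ) : Set (L ≃ₐ[ℚ] L) :=
  {σ | ∃ 𝔓 : Ideal (𝓞 L), 𝔓.IsPrime ∧ (p : 𝓞 L) ∈ 𝔓 ∧ ∀ x : 𝓞 L, σ • x - x ^ (p ^ a) ∈ 𝔓}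

/-- `L` is a Galois number field, the prime number `p` is unramified in `L`, and exactly `κ`
automorphisms of `L` are `a`-th powers of Frobenius automorphisms above `p`. -/
def NumFrob (L : IntermediateField ℚ ℂ) (p a κ : ℕ) : Prop :=
  FiniteDimensional ℚ L ∧ IsGalois ℚ L ∧ p.Prime ∧ 1 ≤ a ∧ Unramified L p ∧
    (frobenii L p a).ncard = κ

/-- Every unit eigenvalue `z` lies in a Galois number field in which a prime `p` is unramified, with
few `a`-th powers of Frobenius automorphisms compared with the degree of `z`: their number `κ`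
satisfies `p ^ (a + 1) κ exp (9 √(log 2κ)) ≤ K deg z`. -/
def FewFrob (H : Type*) [Group H] (k : ℕ) (K : ℝ) : Prop :=
  ∀ (t : H) (z : ℂ), UnitEigenvalue k t z →
    ∃ (L : IntermediateField ℚ ℂ) (p a κ : ℕ), NumFrob L p a κ ∧ z ∈ L ∧
      (p : ℝ) ^ (a + 1) * (κ * Real.exp (9 * √(Real.log (2 * κ)))) ≤ K * (minpoly ℤ z).natDegree

/-- `S` is a finite generating set of `G`, the subgroup `H` has index at most `d`, and
`Γ = γ_{k+1}(H)` is nilpotent or `H / [Γ, Γ]` is not virtually nilpotent. -/
def Setting (k d : ℕ) {G : Type*} [Group G] (S : Set G) (H : Subgroup G) : Prop :=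
  1 ≤ k ∧ S.Finite ∧ Subgroup.closure S = ⊤ ∧ H.index ≠ 0 ∧ H.index ≤ d ∧
    (Group.IsNilpotent (gamma H k) ∨ ¬ Group.IsVirtuallyNilpotent (H ⧸ ⁅gamma H k, gamma H k⁆))

/-- The gap for groups the eigenvalues of which lie in Galois fields with few Frobenius automorphisms
compared with their degrees. -/
theorem result : ∃ c : ℝ, 0 < c ∧
    ∀ (k d : ℕ) (G : Type u) [Group G] (S : Set G) (H : Subgroup G), Setting k d S H →
      ∃ ρ : ℝ, Tendsto (fun n : ℕ => Real.log (Nat.card ↥(S ^ n)) / n) atTop (𝓝 ρ) ∧
        ∀ K : ℝ, 0 ≤ K → FewFrob H k K →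
          Group.IsVirtuallyNilpotent G ∨ c / (2 ^ k * d * (1 + K)) ≤ ρ := by
  obtain ⟨C, hC, h1⟩ := Pool.Agent.Run7.h22.mahler_few_p
  set c0 := min (1 / C) (1 / 2) with hc0def
  have hc0 : 0 < c0 := lt_min (by positivity) (by norm_num)
  have e1 : c0 ≤ 1 / C := min_le_left _ _
  have e4 : c0 ≤ 1 / 2 := min_le_right _ _
  refine ⟨c0 / 12, by positivity, ?_⟩
  rintro k d G _ S H ⟨hk, hfin, hgen, hH0, hHd, hnil⟩
  refine ⟨H746UG.rho S, H746UG.tendsto_rho S, ?_⟩
  intro K hK hfew
  have hy0 : 0 ≤ c0 / (1 + K) := by positivity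
  have hy : c0 / (1 + K) ≤ 1 / 2 := (div_le_self hc0.le (by linarith)).trans e4
  have h4 := Pool.Agent.R328.gap_of_log hk S hfin hgen H hH0 hHd hnil hy0 hy (by
    intro t b x hx0 hx hxi hxi' hp' heig
    obtain ⟨L, p, a, κ, ⟨hfd, hgal, hp, ha, hunr, hcard⟩, hxL, hκ⟩ := hfew t x ⟨heig, hxi, hxi', hx⟩
    have hnf : NumberField L :=
      { to_charZero := inferInstance
        to_finiteDimensional := hfd }
    have hM : 1 < Pool.Agent.W963.GE.MM x := Pool.Agent.W963.GE.MM_gt x hxi hx0 hx
    have hlog : 0 < Real.log (Pool.Agent.W963.GE.MM x) := Real.log_pos hM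
    have h2 : ((minpoly ℤ x).natDegree : ℝ) ≤ C * ((p : ℝ) ^ (a + 1) *
        (κ * Real.exp (9 * √(Real.log (2 * κ))))) * Real.log (Pool.Agent.W963.GE.MM x) := by
      have h3 := h1 L x hxL p a hp ha hunr hxi hxi' hx0 hx
      have h5 : (frobenii L p a).ncard = (Pool.Agent.Run7.h22.frobSet L p (p ^ a)).ncard := rfl
      rw [← h5, hcard, mul_assoc C] at h3
      exact h3
    have hn : (0:ℝ) < (minpoly ℤ x).natDegree := by exact_mod_cast minpoly.natDegree_pos hxi
    have h6 : ((minpoly ℤ x).natDegree : ℝ) ≤ C * (K * (minpoly ℤ x).natDegree) *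
        Real.log (Pool.Agent.W963.GE.MM x) := by
      refine h2.trans ?_
      gcongr
    have h7 : 1 ≤ C * K * Real.log (Pool.Agent.W963.GE.MM x) := by
      by_contra h8
      push Not at h8
      have h9 : C * (K * (minpoly ℤ x).natDegree) * Real.log (Pool.Agent.W963.GE.MM x) =
        (C * K * Real.log (Pool.Agent.W963.GE.MM x)) * (minpoly ℤ x).natDegree := by ring
      rw [h9] at h6
      nlinarith
    rw [div_le_iff₀ (by linarith)]
    refine e1.trans ?_
    rw [div_le_iff₀ hC]
    nlinarith [mul_pos hC hlog])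
  refine h4.imp_right fun h5 => le_trans (le_of_eq ?_) h5
  rw [div_div, div_div, div_div]
  congr 1
  ring

end Pool.Agent.Results.MP_d69e80_al.FewFrobeniusAutomorphisms
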