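import Mathlib
import Pool.Agent.R328.TA
import Pool.Agent.Run7.h260.SX.Top

/-!
# Growth gaps for solvable groups acting on `Γ^ab` by matrices with few large singular values

`G = ⟨S⟩`, `H` is a subgroup of index at most `d`, `Γ = γ_{k+1}(H)` is nilpotent (or `H/[Γ,Γ]` is
not virtually nilpotent), and `A = Γ^ab`, on which `H` acts by conjugation. For a complex matrix `X`
let `excess X` be the product of the singular values of `X` that are larger than one.

Let `L ≥ 0`. Suppose that every eigenvalue `z` of an element of `H` on `ℂ ⊗ A`, which is a unit and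
not a root of unity, is an eigenvalue of a square integer matrix `B` (of any size) with irreducible
characteristic polynomial such that, for an invertible complex matrix `P` and an index `v` (all
depending on `z`), `excess (P⁻¹ B P) ≤ 1 + L` and the product of the norms of the `v`-th row of `P`
and the `v`-th column of `P⁻¹` is at most `L`. Then `G` is virtually nilpotent or
`ρ_S ≥ c / (2 ^ k d (1 + log (1 + L)) ^ 3)` with an absolute constant `c > 0`.

In particular this holds if `A` has a finite basis such that the matrices of all `t ∈ H` having such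
an eigenvalue are matrices `B` of this kind, for instance if the product of the singular values `> 1`
of these matrices is at most `1 + L` (and `L ≥ 1`): the rank of `A` does not enter, and there is no
condition on the eigenvalues, on diagonalisability or on the condition number of a change of basis.
-/

set_option autoImplicit false

namespace Pool.Agent.Results.MP_d69e80_al.SingularGrowth

open Filter Topology Polynomial
open scoped Pointwise commutatorElement TensorProduct

universe u

/-- The term `γ_{k+1}(G)` of the lower central series (so `k = 1` gives `G'`). -/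
abbrev gamma (G : Type*) [Group G] (k : ℕ) : Subgroup G := (⊤ : Subgroup G).lowerCentralSeries k

/-- Conjugation by `t` on a normal subgroup `N`. -/
noncomputable def conjHom {G : Type*} [Group G] (N : Subgroup G) [N.Normal] (t : G) : N →* N :=
  (MulAut.conjNormal t : N ≃* N).toMonoidHom

/-- Conjugation by `t` on the abelianization `N^ab` of a normal subgroup `N`. -/
noncomputable def conjMap {G : Type*} [Group G] (N : Subgroup G) [N.Normal] (t : G) :
    Abelianization N →* Abelianization N :=
  Abelianization.map (conjHom N t)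

/-- Conjugation by `t` on the abelianization `N^ab` (written additively) of a normal subgroup `N`,
as a map. -/
noncomputable def conjFun {G : Type*} [Group G] (N : Subgroup G) [N.Normal] (t : G)
    (x : Additive (Abelianization N)) : Additive (Abelianization N) :=
  Additive.ofMul (conjMap N t x.toMul)

lemma conjFun_add {G : Type*} [Group G] (N : Subgroup G) [N.Normal] (t : G)
    (x y : Additive (Abelianization N)) : conjFun N t (x + y) = conjFun N t x + conjFun N t y :=
  map_mul (conjMap N t) x.toMul y.toMul

/-- Conjugation by `t` on the abelianization `N^ab` (written additively) of a normal subgroup `N`,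
as a homomorphism of the abelian group `N^ab`. -/
noncomputable def conjAdd {G : Type*} [Group G] (N : Subgroup G) [N.Normal] (t : G) :
    Additive (Abelianization N) →+ Additive (Abelianization N) :=
  AddMonoidHom.mk' (conjFun N t) (conjFun_add N t)

/-- Conjugation by `t` on the abelianization `N^ab` (written additively) of a normal subgroup `N`,
as an endomorphism of the `ℤ`-module `N^ab`. -/
noncomputable def conjAb {G : Type*} [Group G] (N : Subgroup G) [N.Normal] (t : G) :
    Module.End ℤ (Additive (Abelianization N)) :=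
  (conjAdd N t).toIntLinearMap

/-- The bases of the `ℤ`-module `N^ab` with `n` elements. -/
abbrev AbBasis {G : Type*} [Group G] (N : Subgroup G) (n : ℕ) :=
  Module.Basis (Fin n) ℤ (Additive (Abelianization N))

/-- The matrix of the conjugation by `t` on `N^ab` in the basis `b`. -/
noncomputable def conjMatrix {G : Type*} [Group G] (N : Subgroup G) [N.Normal] {n : ℕ}
    (b : AbBasis N n) (t : G) : Matrix (Fin n) (Fin n) ℤ :=
  fun i j => b.coord i (conjAb N t (b j))

/-- `z` is an eigenvalue of `t ∈ H` acting on `ℂ ⊗ Γ^ab`, `Γ = γ_{k+1}(H)`, it is an algebraic unit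
and not a root of unity. -/
def UnitEigenvalue {H : Type*} [Group H] (k : ℕ) (t : H) (z : ℂ) : Prop :=
  Module.End.HasEigenvalue (LinearMap.baseChange ℂ (conjAb (gamma H k) t) :
    Module.End ℂ (ℂ ⊗[ℤ] Additive (Abelianization (gamma H k)))) z ∧
  IsIntegral ℤ z ∧ IsIntegral ℤ z⁻¹ ∧ ∀ m : ℕ, 0 < m → z ^ m ≠ 1

/-- The product of the singular values larger than one of a complex matrix `X`, that is the product
of `max 1 √h` over the eigenvalues `h` of `X* X` with multiplicity. -/
noncomputable def excess {n : ℕ} (X : Matrix (Fin n) (Fin n) ℂ) : ℝ :=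
  (((X.conjTranspose * X).charpoly.roots.map fun h : ℂ => max 1 √‖h‖)).prod

/-- The characteristic polynomial of the integer matrix `B` is irreducible and there are a complex
matrix `P` with inverse `Q` and an index `v` such that the product of the singular values larger than
one of `Q B P` is at most `1 + L`, and the norms of the `v`-th row of `P` and of the `v`-th column of
`Q` have product at most `L`. -/
def FewLarge (L : ℝ) {n : ℕ} (B : Matrix (Fin n) (Fin n) ℤ) : Prop :=
  Irreducible B.charpoly ∧ ∃ (P Q : Matrix (Fin n) (Fin n) ℂ) (v : Fin n), P * Q = 1 ∧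
    excess (Q * B.map (Int.castRingHom ℂ) * P) ≤ 1 + L ∧
    √(∑ j, ‖P v j‖ ^ 2) * √(∑ j, ‖Q j v‖ ^ 2) ≤ L

/-- Condition (1): every unit eigenvalue is an eigenvalue of an integer matrix (of any size) with
irreducible characteristic polynomial and few large singular values. -/
def SmallExcess (H : Type*) [Group H] (k : ℕ) (L : ℝ) : Prop :=
  ∀ (t : H) (z : ℂ), UnitEigenvalue k t z →
    ∃ (n : ℕ) (B : Matrix (Fin n) (Fin n) ℤ), aeval z B.charpoly = 0 ∧ FewLarge L B

/-- Condition (2): `Γ^ab` has a finite basis such that the matrices of all elements of `H` with a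
unit eigenvalue have irreducible characteristic polynomials and few large singular values. -/
def SmallExcessBasis (H : Type*) [Group H] (k : ℕ) (L : ℝ) : Prop :=
  ∃ (n : ℕ) (b : AbBasis (gamma H k) n), ∀ (t : H) (z : ℂ), UnitEigenvalue k t z →
    FewLarge L (conjMatrix (gamma H k) b t)

/-- Condition (3): `Γ^ab` has a finite basis such that the matrices of all elements of `H` with a
unit eigenvalue have irreducible characteristic polynomials and the product of their singular values
larger than one is at most `1 + L`. -/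
def SmallExcessMatrices (H : Type*) [Group H] (k : ℕ) (L : ℝ) : Prop :=
  ∃ (n : ℕ) (b : AbBasis (gamma H k) n), ∀ (t : H) (z : ℂ), UnitEigenvalue k t z →
    Irreducible (conjMatrix (gamma H k) b t).charpoly ∧
    excess ((conjMatrix (gamma H k) b t).map (Int.castRingHom ℂ)) ≤ 1 + L

/-- `S` is a finite generating set of `G`, the subgroup `H` has index at most `d`, and
`Γ = γ_{k+1}(H)` is nilpotent or `H / [Γ, Γ]` is not virtually nilpotent. -/
def Setting (k d : ℕ) {G : Type*} [Group G] (S : Set G) (H : Subgroup G) : Prop :=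
  1 ≤ k ∧ S.Finite ∧ Subgroup.closure S = ⊤ ∧ H.index ≠ 0 ∧ H.index ≤ d ∧
    (Group.IsNilpotent (gamma H k) ∨ ¬ Group.IsVirtuallyNilpotent (H ⧸ ⁅gamma H k, gamma H k⁆))

lemma conjMatrix_eq {G : Type*} [Group G] (N : Subgroup G) [N.Normal] {n : ℕ}
    (b : AbBasis N n) (t : G) : conjMatrix N b t = LinearMap.toMatrix b b (conjAb N t) := by
  ext i j
  rw [LinearMap.toMatrix_apply]
  rfl

theorem excess_sq {n : ℕ} (X : Matrix (Fin n) (Fin n) ℂ) :
    excess X ^ 2 = (X.conjTranspose * X).charpoly.mahlerMeasure := by
  rw [Polynomial.mahlerMeasure_eq_leadingCoeff_mul_prod_roots,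
    (Matrix.charpoly_monic _).leadingCoeff, norm_one, one_mul]
  unfold excess
  rw [← Multiset.prod_map_pow]
  congr 1
  refine Multiset.map_congr rfl fun h _ => ?_
  rcases le_total 1 ‖h‖ with h1 | h1
  · have h2 : 1 ≤ √‖h‖ := Real.one_le_sqrt.mpr h1
    rw [max_eq_right h1, max_eq_right h2, Real.sq_sqrt (norm_nonneg _)]
  · have h2 : √‖h‖ ≤ 1 := Real.sqrt_le_one.mpr h1
    rw [max_eq_left h1, max_eq_left h2, one_pow]

theorem excess_nonneg {n : ℕ} (X : Matrix (Fin n) (Fin n) ℂ) : 0 ≤ excess X := by
  unfold excess
  refine Multiset.prod_nonneg fun x hx => ?_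
  obtain ⟨y, -, rfl⟩ := Multiset.mem_map.mp hx
  exact le_trans zero_le_one (le_max_left _ _)

/-- the lower bound for the Mahler measure -/
theorem few_bound : ∃ c : ℝ, 0 < c ∧ ∀ (L : ℝ), 0 ≤ L → ∀ (n : ℕ) (B : Matrix (Fin n) (Fin n) ℤ),
    FewLarge L B → 1 < Pool.Agent.H261R2.CM.m1 B.charpoly →
    c / (1 + Real.log (1 + L)) ^ 3 ≤ Real.log (Pool.Agent.H261R2.CM.m1 B.charpoly) := by
  obtain ⟨c, hc, h⟩ := Pool.Agent.Run7.h260.SX.matrix_irr
  refine ⟨c / 27, by positivity, ?_⟩
  rintro L hL n B ⟨hirr, P, Q, v, hPQ, h1, h2⟩ hM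
  have hl : 0 ≤ Real.log (1 + L) := Real.log_nonneg (by linarith)
  have h3 := h n B hirr hM P Q hPQ v
  have e0 : 0 ≤ Pool.Agent.Run7.h260.SX.cnd P Q v := Real.sqrt_nonneg _
  have e1 : Pool.Agent.Run7.h260.SX.cnd P Q v ≤ L := by
    unfold Pool.Agent.Run7.h260.SX.cnd
    rw [Real.sqrt_mul (Finset.sum_nonneg fun _ _ => by positivity)]
    exact h2
  have e2 : Real.log (1 + Pool.Agent.Run7.h260.SX.cnd P Q v) ≤ Real.log (1 + L) :=
    Real.log_le_log (by linarith) (by linarith)
  have e3 : 0 ≤ Real.log (1 + Pool.Agent.Run7.h260.SX.cnd P Q v) :=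
    Real.log_nonneg (by linarith)
  set X := Q * Pool.Agent.Run7.h260.SX.cm B * P with hX
  have e4 : Real.log (X.conjTranspose * X).charpoly.mahlerMeasure ≤ 2 * Real.log (1 + L) := by
    have e5 : excess X ^ 2 ≤ (1 + L) ^ 2 := pow_le_pow_left₀ (excess_nonneg _) h1 2
    rw [excess_sq] at e5
    have e6 := Real.log_le_log
      (mahlerMeasure_pos_of_ne_zero (Matrix.charpoly_monic (X.conjTranspose * X)).ne_zero) e5
    rw [Real.log_pow] at e6
    push_cast at e6
    exact e6
  have e5 : 0 ≤ Real.log (X.conjTranspose * X).charpoly.mahlerMeasure := Real.log_nonneg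
    (one_le_mahlerMeasure_of_one_le_norm_leadingCoeff
      (by rw [(Matrix.charpoly_monic _).leadingCoeff, norm_one]))
  refine le_trans ?_ h3
  rw [div_div]
  refine div_le_div_of_nonneg_left hc.le (by positivity) ?_
  have e7 : 1 + Real.log (1 + Pool.Agent.Run7.h260.SX.cnd P Q v) +
      Real.log (X.conjTranspose * X).charpoly.mahlerMeasure ≤ 3 * (1 + Real.log (1 + L)) := by
    linarith
  calc (1 + Real.log (1 + Pool.Agent.Run7.h260.SX.cnd P Q v) +
      Real.log (X.conjTranspose * X).charpoly.mahlerMeasure) ^ 3
      ≤ (3 * (1 + Real.log (1 + L))) ^ 3 := pow_le_pow_left₀ (by positivity) e7 3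
    _ = 27 * (1 + Real.log (1 + L)) ^ 3 := by ring

theorem result : ∃ c : ℝ, 0 < c ∧
    ∀ (k d : ℕ) (G : Type u) [Group G] (S : Set G) (H : Subgroup G), Setting k d S H →
      ∃ ρ : ℝ, Tendsto (fun n : ℕ => Real.log (Nat.card ↥(S ^ n)) / n) atTop (𝓝 ρ) ∧
        ∀ L : ℝ, 0 ≤ L →
          SmallExcess H k L ∨ SmallExcessBasis H k L ∨ (1 ≤ L ∧ SmallExcessMatrices H k L) →
          Group.IsVirtuallyNilpotent G ∨ c / (2 ^ k * d * (1 + Real.log (1 + L)) ^ 3) ≤ ρ := by
  obtain ⟨c1, hc1, h1⟩ := few_bound
  set c0 := min c1 (1 / 2) with hc0def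
  have hc0 : 0 < c0 := lt_min hc1 (by norm_num)
  have e1 : c0 ≤ c1 := min_le_left _ _
  have e4 : c0 ≤ 1 / 2 := min_le_right _ _
  refine ⟨c0 / 12, by positivity, ?_⟩
  rintro k d G _ S H ⟨hk, hfin, hgen, hH0, hHd, hnil⟩
  refine ⟨H746UG.rho S, H746UG.tendsto_rho S, ?_⟩
  intro L hL hcases
  -- reduction to condition (1)
  have hmat : ∀ (n : ℕ) (b : AbBasis (gamma H k) n) (t : H) (z : ℂ), UnitEigenvalue k t z →
      aeval z (conjMatrix (gamma H k) b t).charpoly = 0 := by
    intro n b t z hz
    have h6 : Module.Free ℤ (Additive (Abelianization (gamma H k))) := Module.Free.of_basis b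
    have h7 : Module.Finite ℤ (Additive (Abelianization (gamma H k))) := Module.Finite.of_basis b
    have h8 : (conjMatrix (gamma H k) b t).charpoly = (conjAb (gamma H k) t).charpoly := by
      rw [conjMatrix_eq]
      exact LinearMap.charpoly_toMatrix _ b
    have h9 := LinearMap.charpoly_baseChange (A := ℂ) (conjAb (gamma H k) t)
    have h10 := (Module.End.hasEigenvalue_iff_isRoot_charpoly _ _).mp hz.1
    rw [h9] at h10
    rw [h8]
    rw [IsRoot.def, eval_map] at h10
    rw [aeval_def]
    exact h10
  have hall : SmallExcess H k L := by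
    rcases hcases with h | ⟨n, b, h⟩ | ⟨hL1, n, b, h⟩
    · exact h
    · intro t z hz
      exact ⟨n, _, hmat n b t z hz, h t z hz⟩
    · intro t z hz
      refine ⟨n, _, hmat n b t z hz, (h t z hz).1, 1, 1, ?_⟩
      have hn : n ≠ 0 := by
        rintro rfl
        have h2 := hmat 0 b t z hz
        have h3 : (conjMatrix (gamma H k) b t).charpoly = 1 := by
          unfold Matrix.charpoly
          exact Matrix.det_isEmpty
        rw [h3] at h2
        simp at h2
      refine ⟨⟨0, Nat.pos_of_ne_zero hn⟩, one_mul 1, ?_, ?_⟩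
      · rw [one_mul, mul_one]
        exact (h t z hz).2
      · have h3 : ∀ v : Fin n, ∑ j, ‖(1 : Matrix (Fin n) (Fin n) ℂ) v j‖ ^ 2 = 1 := by
          intro v
          rw [Finset.sum_eq_single v]
          · simp
          · intro j _ hj
            rw [Matrix.one_apply_ne (Ne.symm hj)]
            simp
          · simp
        have h4 : ∀ v : Fin n, ∑ j, ‖(1 : Matrix (Fin n) (Fin n) ℂ) j v‖ ^ 2 = 1 := by
          intro v
          rw [Finset.sum_eq_single v]
          · simp
          · intro j _ hj
            rw [Matrix.one_apply_ne hj]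
            simp
          · simp
        rw [h3, h4, Real.sqrt_one, one_mul]
        exact hL1
  have hl : 0 ≤ Real.log (1 + L) := Real.log_nonneg (by linarith)
  have hy0 : 0 ≤ c0 / (1 + Real.log (1 + L)) ^ 3 := by positivity
  have hy : c0 / (1 + Real.log (1 + L)) ^ 3 ≤ 1 / 2 :=
    (div_le_self hc0.le (one_le_pow₀ (by linarith))).trans e4
  have h4 := Pool.Agent.R328.gap_of_log hk S hfin hgen H hH0 hHd hnil hy0 hy (by
    intro t a x hx0 hx hxi hxi' hp heig
    obtain ⟨n, B, hB, hfew⟩ := hall t x ⟨heig, hxi, hxi', hx⟩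
    have hM : 1 < Pool.Agent.W963.GE.MM x := Pool.Agent.W963.GE.MM_gt x hxi hx0 hx
    have hmin : minpoly ℤ x = B.charpoly := by
      have h6 := minpoly.isIntegrallyClosed_dvd hxi hB
      exact eq_of_monic_of_associated (minpoly.monic hxi) (Matrix.charpoly_monic _)
        ((minpoly.irreducible hxi).associated_of_dvd hfew.1 h6)
    have hM' : 1 < Pool.Agent.H261R2.CM.m1 B.charpoly := by
      rw [← hmin]; exact hM
    have h5 := h1 L hL n B hfew hM'
    rw [← hmin] at h5
    refine le_trans ?_ h5
    exact div_le_div_of_nonneg_right e1 (by positivity))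
  refine h4.imp_right fun h5 => le_trans (le_of_eq ?_) h5
  rw [div_div, div_div, div_div]
  congr 1
  ring

end Pool.Agent.Results.MP_d69e80_al.SingularGrowth
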